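import Pool.Agent.H902R3.BF.Defs

set_option autoImplicit false

namespace Pool.Agent.H902R3.BF

open Finset

theorem CNT_geo (N : ℕ) : 3 * ∑ i : Fin N, (4 : ℤ) ^ (i : ℕ) = 4 ^ N - 1 := by
  rw [Fin.sum_univ_eq_sum_range (fun i => (4 : ℤ) ^ i) N]
  have := geom_sum_mul (4 : ℤ) N
  linarith

theorem CNT_bd (k : ℤ) (N : ℕ) (hk : 0 < k) (u : Fin N → Bool × Bool) :
    -k * (4 ^ N - 1) ≤ 3 * xv k N u ∧ 3 * xv k N u ≤ 4 ^ N - 1 := by
  have hg := CNT_geo N
  have hup : xv k N u ≤ ∑ i : Fin N, (4 : ℤ) ^ (i : ℕ) := by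
    unfold xv
    refine sum_le_sum fun i _ => ?_
    have h4 : (0 : ℤ) < 4 ^ (i : ℕ) := by positivity
    have hc : ((if (u i).1 then 1 else 0) - k * (if (u i).2 then 1 else 0) : ℤ) ≤ 1 := by
      split_ifs <;> omega
    nlinarith
  have hlo : ∑ i : Fin N, (-k) * (4 : ℤ) ^ (i : ℕ) ≤ xv k N u := by
    unfold xv
    refine sum_le_sum fun i _ => ?_
    have h4 : (0 : ℤ) < 4 ^ (i : ℕ) := by positivity
    have hc : -k ≤ ((if (u i).1 then 1 else 0) - k * (if (u i).2 then 1 else 0) : ℤ) := by
      split_ifs <;> omega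
    exact mul_le_mul_of_nonneg_right hc h4.le
  rw [← mul_sum] at hlo
  constructor
  · calc -k * (4 ^ N - 1) = 3 * (-k * ∑ i : Fin N, (4 : ℤ) ^ (i : ℕ)) := by rw [← hg]; ring
      _ ≤ 3 * xv k N u := by linarith
  · linarith

theorem CNT_ok : S_CNT := by
  classical
  intro k N hk hinj
  have main : ((univ : Finset ((Fin N → Bool × Bool) × (Fin N → Bool × Bool))).filter
      (fun p => ((4 : ℤ) ^ N) ∣ xv k N p.1 - xv k N p.2)).card ≤ (k.toNat + 2) * 4 ^ N := by
    refine (card_le_mul_card_image (f := Prod.fst) _ (k.toNat + 2) ?_).trans ?_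
    · intro a _
      have hQ : (0 : ℤ) < 4 ^ N := by positivity
      have hcard : (Icc (-(k / 3)) (k / 3)).card ≤ k.toNat + 2 := by
        rw [Int.card_Icc]
        omega
      refine le_trans ?_ hcard
      refine card_le_card_of_injOn (fun x => (xv k N a - xv k N x.2) / 4 ^ N) ?_ ?_
      · intro x hx
        simp only [coe_filter, Set.mem_ofPred_eq, mem_filter, mem_univ, true_and] at hx
        obtain ⟨hx, rfl⟩ := hx
        obtain ⟨t, ht⟩ := hx
        have he : (xv k N x.1 - xv k N x.2) / 4 ^ N = t := by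
          rw [ht]
          exact Int.mul_ediv_cancel_left _ hQ.ne'
        simp only [coe_Icc, Set.mem_Icc]
        rw [he]
        have b1 := CNT_bd k N hk x.1
        have b2 := CNT_bd k N hk x.2
        have u1 : 3 * (4 ^ N * t) ≤ (k + 1) * (4 ^ N - 1) := by rw [← ht]; linarith
        have u2 : -((k + 1) * (4 ^ N - 1)) ≤ 3 * (4 ^ N * t) := by rw [← ht]; linarith
        have v1 : 3 * t < k + 1 := by
          by_contra hc
          push Not at hc
          nlinarith
        have v2 : -(k + 1) < 3 * t := by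
          by_contra hc
          push Not at hc
          nlinarith
        constructor <;> omega
      · intro x hx y hy hxy
        simp only [coe_filter, Set.mem_ofPred_eq, mem_filter, mem_univ, true_and] at hx hy
        obtain ⟨hx, hx1⟩ := hx
        obtain ⟨hy, hy1⟩ := hy
        simp only at hxy
        rw [hx1] at hx
        rw [hy1] at hy
        have e := Int.ediv_left_inj hx hy |>.1 hxy
        have e2 : xv k N x.2 = xv k N y.2 := by linarith
        exact Prod.ext (hx1.trans hy1.symm) (hinj e2)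
    · refine Nat.mul_le_mul_left _ ?_
      refine (card_le_univ _).trans (le_of_eq ?_)
      rw [Fintype.card_fun]
      simp
  have hcnt : cnt k N = (((univ : Finset ((Fin N → Bool × Bool) × (Fin N → Bool × Bool))).filter
      (fun p => ((4 : ℤ) ^ N) ∣ xv k N p.1 - xv k N p.2)).card : ℝ) := by
    unfold cnt
    congr!
  rw [hcnt]
  have hk' : ((k.toNat : ℕ) : ℝ) = k := by
    have : ((k.toNat : ℕ) : ℤ) = k := Int.toNat_of_nonneg hk.le
    exact_mod_cast this
  calc (((univ : Finset ((Fin N → Bool × Bool) × (Fin N → Bool × Bool))).filter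
      (fun p => ((4 : ℤ) ^ N) ∣ xv k N p.1 - xv k N p.2)).card : ℝ)
      ≤ (((k.toNat + 2) * 4 ^ N : ℕ) : ℝ) := by exact_mod_cast main
    _ = 4 ^ N * ((k : ℝ) + 2) := by
        push_cast
        rw [hk']
        ring

end Pool.Agent.H902R3.BF
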