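import Mathlib

/-!
# MP_c52340_nt: multipliers in base four, definitions and statements of the steps
-/

set_option autoImplicit false

namespace Pool.Agent.H902R3.BF

/-- digits -1, 0, 1 -/
def IsDig (e : ℕ → ℤ) : Prop := ∀ i, e i = -1 ∨ e i = 0 ∨ e i = 1

/-- value of the first `N` digits -/
def val (e : ℕ → ℤ) (N : ℕ) : ℤ := ∑ i ∈ Finset.range N, e i * 4 ^ i

/-- a nonzero solution with `N` digits of `k m = n`, `m, n` with digits -1, 0, 1 -/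
def Sol (k : ℤ) (N : ℕ) : Prop := ∃ e e' : ℕ → ℤ, IsDig e ∧ IsDig e' ∧
  k * val e' N = val e N ∧ val e' N ≠ 0

/-- UNQ: uniqueness of digits -/
def S_UNQ : Prop := ∀ (e : ℕ → ℤ) (N : ℕ), IsDig e → val e N = 0 → ∀ i < N, e i = 0

/-- the number `a - k b`, `a, b` with digits 0, 1 -/
def xv (k : ℤ) (N : ℕ) (u : Fin N → Bool × Bool) : ℤ :=
  ∑ i : Fin N, ((if (u i).1 then 1 else 0) - k * (if (u i).2 then 1 else 0)) * 4 ^ (i : ℕ)

/-- INJ: without solutions these numbers are distinct -/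
def S_INJ : Prop := ∀ (k : ℤ) (N : ℕ), ¬ Sol k N → Function.Injective (xv k N)

/-- number of pairs congruent modulo `4 ^ N` -/
noncomputable def cnt (k : ℤ) (N : ℕ) : ℝ := by
  classical
  exact ((((Finset.univ : Finset ((Fin N → Bool × Bool) × (Fin N → Bool × Bool))).filter
    (fun p => ((4 : ℤ) ^ N) ∣ xv k N p.1 - xv k N p.2)).card : ℕ) : ℝ)

/-- CNT: upper bound for the number of congruent pairs -/
def S_CNT : Prop := ∀ (k : ℤ) (N : ℕ), 0 < k → Function.Injective (xv k N) →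
  cnt k N ≤ 4 ^ N * ((k : ℝ) + 2)

/-- the square of the modulus of the exponential sum -/
noncomputable def FF (k : ℤ) (N : ℕ) (a : ℕ) : ℝ :=
  ∏ j ∈ Finset.range N, (16 * Real.cos (Real.pi * a / 4 ^ (j + 1)) ^ 2 *
    Real.cos (Real.pi * k * a / 4 ^ (j + 1)) ^ 2)

/-- MOD: the exponential sum -/
def S_MOD : Prop := ∀ (k : ℤ) (N : ℕ) (a : ℕ),
  ‖∑ u : Fin N → Bool × Bool,
    Complex.exp (2 * Real.pi * Complex.I * a * (xv k N u : ℂ) / 4 ^ N)‖ ^ 2 = FF k N a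

/-- PAR: Parseval -/
def S_PAR : Prop := ∀ (k : ℤ) (N : ℕ),
  ∑ a ∈ Finset.range (4 ^ N), FF k N a = 4 ^ N * cnt k N

/-- ETA: positivity of the infinite product -/
def S_ETA : Prop := ∀ k : ℤ, Odd k → ∃ η : ℝ, 0 < η ∧ ∀ M : ℕ,
  η ≤ ∏ j ∈ Finset.range M, (Real.cos (Real.pi / 4 ^ (j + 1)) ^ 2 *
    Real.cos (Real.pi * k / 4 ^ (j + 1)) ^ 2)

/-- LOW: the terms `a = 4 ^ s` -/
def S_LOW : Prop := ∀ (k : ℤ) (N s : ℕ), s ≤ N →
  FF k N (4 ^ s) = 16 ^ N * ∏ j ∈ Finset.range (N - s), (Real.cos (Real.pi / 4 ^ (j + 1)) ^ 2 *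
    Real.cos (Real.pi * k / 4 ^ (j + 1)) ^ 2)

/-- EXI: existence of solutions -/
def S_EXI : Prop := ∀ k : ℤ, Odd k → 0 < k → ∃ N, Sol k N

/-- SHO: a shortest solution is short -/
def S_SHO : Prop := ∀ k : ℤ, Odd k → 0 < k → (∃ N, Sol k N) →
  ∃ N : ℕ, 3 * (N : ℤ) ≤ k + 3 ∧ Sol k N

/-- the set `L` -/
def L : Set ℤ := {n | ∃ (N : ℕ) (e : ℕ → ℤ), IsDig e ∧ n = val e N}

/-- FIN: explicit multipliers -/
def S_FIN : Prop := ∀ k : ℤ, Odd k → ∃ m : ℤ, 0 < m ∧ m ∈ L ∧ k * m ∈ L ∧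
  3 * m < 4 ^ (k.natAbs / 3 + 1)

end Pool.Agent.H902R3.BF
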