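import Pool.Agent.H902R3.BF.Defs

set_option autoImplicit false

namespace Pool.Agent.H902R3.BF

private theorem ETA_ne (k : ℤ) (hk : Odd k) (j : ℕ) :
    Real.cos (Real.pi * k / 4 ^ (j + 1)) ≠ 0 := by
  intro h
  rw [Real.cos_eq_zero_iff] at h
  obtain ⟨n, hn⟩ := h
  have hpi := Real.pi_pos
  have h4 : (0 : ℝ) < 4 ^ (j + 1) := by positivity
  have h1 : (2 : ℝ) * k = (2 * n + 1) * 4 ^ (j + 1) := by
    field_simp at hn
    linarith
  have h2 : (2 : ℤ) * k = (2 * n + 1) * 4 ^ (j + 1) := by exact_mod_cast h1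
  have h3 : k = 2 * ((2 * n + 1) * 4 ^ j) := by
    rw [pow_succ] at h2
    linarith
  rw [h3] at hk
  exact (Int.not_odd_iff_even.mpr (even_two_mul _)) hk

private theorem ETA_ge (x y : ℝ) : 1 - (x ^ 2 + y ^ 2) ≤ Real.cos x ^ 2 * Real.cos y ^ 2 := by
  have h1 := Real.sin_sq_add_cos_sq x
  have h2 := Real.sin_sq_add_cos_sq y
  have h3 : Real.sin x ^ 2 ≤ x ^ 2 := by
    apply sq_le_sq.mpr
    exact Real.abs_sin_le_abs
  have h4 : Real.sin y ^ 2 ≤ y ^ 2 := by
    apply sq_le_sq.mpr
    exact Real.abs_sin_le_abs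
  have e1 : Real.cos x ^ 2 = 1 - Real.sin x ^ 2 := by linarith
  have e2 : Real.cos y ^ 2 = 1 - Real.sin y ^ 2 := by linarith
  rw [e1, e2]
  nlinarith [mul_nonneg (sq_nonneg (Real.sin x)) (sq_nonneg (Real.sin y))]

theorem ETA_ok : S_ETA := by
  intro k hk
  set c : ℕ → ℝ := fun j => Real.cos (Real.pi / 4 ^ (j + 1)) ^ 2 *
    Real.cos (Real.pi * k / 4 ^ (j + 1)) ^ 2 with hc
  have hc0 : ∀ j, 0 < c j := by
    intro j
    have h1 : Real.cos (Real.pi / 4 ^ (j + 1)) ≠ 0 := by
      have := ETA_ne 1 odd_one j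
      simpa using this
    have h2 := ETA_ne k hk j
    simp only [hc]
    positivity
  have hc1 : ∀ j, c j ≤ 1 := by
    intro j
    simp only [hc]
    exact mul_le_one₀ (Real.cos_sq_le_one _) (sq_nonneg _) (Real.cos_sq_le_one _)
  set K : ℝ := Real.pi ^ 2 * (1 + (k : ℝ) ^ 2) with hK
  have hK0 : 0 < K := by positivity
  have hck : ∀ j, 1 - K / 16 ^ (j + 1) ≤ c j := by
    intro j
    have h := ETA_ge (Real.pi / 4 ^ (j + 1)) (Real.pi * k / 4 ^ (j + 1))
    have e : (Real.pi / 4 ^ (j + 1)) ^ 2 + (Real.pi * k / 4 ^ (j + 1)) ^ 2 = K / 16 ^ (j + 1) := by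
      have e16 : (16 : ℝ) ^ (j + 1) = (4 ^ (j + 1)) ^ 2 := by
        rw [← pow_mul, mul_comm, pow_mul]
        norm_num
      rw [e16, hK, div_pow, div_pow]
      ring
    rw [e] at h
    exact h
  set P : ℕ → ℝ := fun M => ∏ j ∈ Finset.range M, c j with hP
  have hPs : ∀ M, P (M + 1) = P M * c M := by
    intro M
    simp only [hP]
    exact Finset.prod_range_succ _ _
  have hP0 : ∀ M, 0 < P M := by
    intro M
    exact Finset.prod_pos fun j _ => hc0 j
  have hPa : Antitone P := by
    apply antitone_nat_of_succ_le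
    intro M
    rw [hPs]
    exact mul_le_of_le_one_right (hP0 M).le (hc1 M)
  obtain ⟨J, hJ⟩ : ∃ J : ℕ, K / 16 ^ J ≤ 1 / 2 := by
    obtain ⟨J, hJ⟩ := pow_unbounded_of_one_lt (2 * K) (by norm_num : (1 : ℝ) < 16)
    refine ⟨J, ?_⟩
    rw [div_le_iff₀ (by positivity)]
    linarith
  have hind : ∀ d : ℕ, P J * (1 - (K / 16 ^ J - K / 16 ^ (J + d))) ≤ P (J + d) := by
    intro d
    induction d with
    | zero => simp
    | succ d ih =>
      have h1 : P (J + (d + 1)) = P (J + d) * c (J + d) := hPs (J + d)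
      rw [h1]
      have h2 := hck (J + d)
      set A : ℝ := K / 16 ^ J - K / 16 ^ (J + d) with hA
      have hA1 : A ≤ 1 / 2 := by
        have : 0 < K / 16 ^ (J + d) := by positivity
        linarith
      have hA0 : 0 ≤ A := by
        rw [hA, sub_nonneg]
        apply div_le_div_of_nonneg_left hK0.le (by positivity)
        exact pow_le_pow_right₀ (by norm_num) (by omega)
      set t : ℝ := K / 16 ^ (J + d + 1) with ht
      have ht0 : 0 < t := by positivity
      have e1 : K / 16 ^ (J + d) = 16 * t := by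
        rw [ht, pow_succ]
        field_simp
      have e2 : K / 16 ^ (J + (d + 1)) = t := by rw [ht, add_assoc]
      have e3 : K / 16 ^ J - K / 16 ^ (J + (d + 1)) = A + 15 * t := by
        rw [hA, e1, e2]
        ring
      rw [e3]
      have h3 : P J * (1 - A) * (1 - t) ≤ P (J + d) * c (J + d) := by
        calc P J * (1 - A) * (1 - t) ≤ P J * (1 - A) * c (J + d) := by
              apply mul_le_mul_of_nonneg_left h2
              have := hP0 J
              nlinarith
          _ ≤ P (J + d) * c (J + d) := mul_le_mul_of_nonneg_right ih (hc0 _).le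
      have h4 : P J * (1 - (A + 15 * t)) ≤ P J * (1 - A) * (1 - t) := by
        rw [mul_assoc]
        apply mul_le_mul_of_nonneg_left _ (hP0 J).le
        nlinarith
      exact h4.trans h3
  refine ⟨P J / 2, by have := hP0 J; linarith, ?_⟩
  intro M
  show P J / 2 ≤ P M
  rcases le_total M J with h | h
  · have h1 := hPa h
    have h2 := hP0 J
    linarith
  · obtain ⟨d, rfl⟩ := Nat.exists_eq_add_of_le h
    have h1 := hind d
    have h2 : 0 < K / 16 ^ (J + d) := by positivity
    have h3 := hP0 J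
    nlinarith

end Pool.Agent.H902R3.BF
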