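import Pool.Agent.H902R3.BF.Defs

set_option autoImplicit false

namespace Pool.Agent.H902R3.BF

private theorem EXI_nonneg (k : ℤ) (N a : ℕ) : 0 ≤ FF k N a := by
  unfold FF
  exact Finset.prod_nonneg (fun j _ => by positivity)

theorem EXI_ok (hINJ : S_INJ) (hCNT : S_CNT) (hPAR : S_PAR) (hETA : S_ETA) (hLOW : S_LOW) :
    S_EXI := by
  intro k hk hk0
  by_contra hno
  push Not at hno
  obtain ⟨η, hη, hM⟩ := hETA k hk
  obtain ⟨N, hN⟩ := exists_nat_gt (((k : ℝ) + 2) / η)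
  have h1 : ∑ a ∈ Finset.range (4 ^ N), FF k N a ≤ 4 ^ N * (4 ^ N * ((k : ℝ) + 2)) := by
    rw [hPAR k N]
    exact mul_le_mul_of_nonneg_left (hCNT k N hk0 (hINJ k N (hno N))) (by positivity)
  have h2 : ∑ a ∈ (Finset.range N).image (fun s => 4 ^ s), FF k N a ≤
      ∑ a ∈ Finset.range (4 ^ N), FF k N a := by
    refine Finset.sum_le_sum_of_subset_of_nonneg ?_ (fun a _ _ => EXI_nonneg k N a)
    intro a ha
    rw [Finset.mem_image] at ha
    obtain ⟨s, hs, rfl⟩ := ha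
    rw [Finset.mem_range] at hs ⊢
    exact Nat.pow_lt_pow_right (by norm_num) hs
  have h3 : ∑ a ∈ (Finset.range N).image (fun s => 4 ^ s), FF k N a =
      ∑ s ∈ Finset.range N, FF k N (4 ^ s) := by
    refine Finset.sum_image ?_
    intro a _ b _ hab
    exact Nat.pow_right_injective (le_refl 2 |>.trans (by norm_num)) hab
  have h4 : (N : ℝ) * (16 ^ N * η) ≤ ∑ s ∈ Finset.range N, FF k N (4 ^ s) := by
    have h5 : ∑ s ∈ Finset.range N, (16 ^ N * η : ℝ) ≤ ∑ s ∈ Finset.range N, FF k N (4 ^ s) := by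
      refine Finset.sum_le_sum (fun s hs => ?_)
      rw [Finset.mem_range] at hs
      rw [hLOW k N s hs.le]
      exact mul_le_mul_of_nonneg_left (hM (N - s)) (by positivity)
    rwa [Finset.sum_const, Finset.card_range, nsmul_eq_mul] at h5
  have h6 : (N : ℝ) * (16 ^ N * η) ≤ 4 ^ N * (4 ^ N * ((k : ℝ) + 2)) := by linarith
  have h7 : (4 : ℝ) ^ N * 4 ^ N = 16 ^ N := by rw [← mul_pow]; norm_num
  have h8 : (16 : ℝ) ^ N * (N * η) ≤ 16 ^ N * ((k : ℝ) + 2) := by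
    calc (16 : ℝ) ^ N * (N * η) = N * (16 ^ N * η) := by ring
      _ ≤ 4 ^ N * (4 ^ N * ((k : ℝ) + 2)) := h6
      _ = 16 ^ N * ((k : ℝ) + 2) := by rw [← mul_assoc, h7]
  have h9 : (N : ℝ) * η ≤ (k : ℝ) + 2 := le_of_mul_le_mul_left h8 (by positivity)
  rw [div_lt_iff₀ hη] at hN
  linarith

end Pool.Agent.H902R3.BF
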