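import Pool.Agent.H902R3.BF.Defs

set_option autoImplicit false

namespace Pool.Agent.H902R3.BF

private theorem fin_neg_dig {e : ℕ → ℤ} (h : IsDig e) : IsDig (fun i => - e i) := by
  intro i
  rcases h i with h | h | h
  · right; right
    simp only [h]
    norm_num
  · right; left
    simp only [h]
    norm_num
  · left
    simp only [h]

private theorem fin_neg_val (e : ℕ → ℤ) (N : ℕ) : val (fun i => - e i) N = - val e N := by
  unfold val
  rw [← Finset.sum_neg_distrib]
  refine Finset.sum_congr rfl fun i _ => ?_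
  ring

private theorem fin_neg_L {n : ℤ} (h : n ∈ L) : - n ∈ L := by
  obtain ⟨N, e, he, hn⟩ := h
  exact ⟨N, fun i => - e i, fin_neg_dig he, by rw [fin_neg_val, hn]⟩

private theorem fin_bound {e : ℕ → ℤ} (h : IsDig e) (N : ℕ) : 3 * |val e N| ≤ 4 ^ N - 1 := by
  induction N with
  | zero => simp [val]
  | succ N ih =>
    have h1 : val e (N + 1) = val e N + e N * 4 ^ N := by
      unfold val
      rw [Finset.sum_range_succ]
    have h2 : |e N| ≤ 1 := by
      rcases h N with h | h | h <;> rw [h] <;> norm_num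
    have hp : (0 : ℤ) < 4 ^ N := by positivity
    have h3 : |e N * 4 ^ N| ≤ 4 ^ N := by
      rw [abs_mul, abs_of_pos hp]
      nlinarith [abs_nonneg (e N)]
    have h4 := abs_add_le (val e N) (e N * 4 ^ N)
    rw [h1, pow_succ]
    linarith

private theorem fin_pos (h1 : S_EXI) (h2 : S_SHO) (k : ℤ) (hk : Odd k) (h0 : 0 < k) :
    ∃ m : ℤ, 0 < m ∧ m ∈ L ∧ k * m ∈ L ∧ 3 * m < 4 ^ (k.natAbs / 3 + 1) := by
  obtain ⟨N, hN, e, e', he, he', heq, hne⟩ := h2 k hk h0 (h1 k hk h0)
  have hb := fin_bound he' N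
  have hN' : N ≤ k.natAbs / 3 + 1 := by omega
  have hpow : (4 : ℤ) ^ N ≤ 4 ^ (k.natAbs / 3 + 1) := pow_le_pow_right₀ (by norm_num) hN'
  refine ⟨|val e' N|, abs_pos.2 hne, ?_, ?_, by linarith⟩
  · have h3 : val e' N ∈ L := ⟨N, e', he', rfl⟩
    rcases abs_choice (val e' N) with h | h
    · rw [h]
      exact h3
    · rw [h]
      exact fin_neg_L h3
  · have h3 : val e N ∈ L := ⟨N, e, he, rfl⟩
    rcases abs_choice (val e' N) with h | h
    · rw [h, heq]
      exact h3
    · rw [h, mul_neg, heq]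
      exact fin_neg_L h3

theorem FIN_ok (h1 : S_EXI) (h2 : S_SHO) : S_FIN := by
  intro k hk
  rcases lt_trichotomy k 0 with h | h | h
  · obtain ⟨m, hm, hmL, hkm, hb⟩ := fin_pos h1 h2 (-k) hk.neg (by linarith)
    refine ⟨m, hm, hmL, ?_, ?_⟩
    · have h3 := fin_neg_L hkm
      have e : -(-k * m) = k * m := by ring
      rw [e] at h3
      exact h3
    · rw [Int.natAbs_neg] at hb
      exact hb
  · exfalso
    subst h
    exact (by decide : ¬ Odd (0 : ℤ)) hk
  · exact fin_pos h1 h2 k hk h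

end Pool.Agent.H902R3.BF
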