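import Pool.Agent.H902R3.BF.Defs

set_option autoImplicit false

namespace Pool.Agent.H902R3.BF

private theorem SH2_split (e : ℕ → ℤ) (i M : ℕ) :
    val e (i + M) = val e i + 4 ^ i * val (fun l => e (i + l)) M := by
  induction M with
  | zero => simp [val]
  | succ M ih =>
    have h1 : val e (i + (M + 1)) = val e (i + M) + e (i + M) * 4 ^ (i + M) := by
      unfold val; rw [← Nat.add_assoc, Finset.sum_range_succ]
    have h2 : val (fun l => e (i + l)) (M + 1) = val (fun l => e (i + l)) M + e (i + M) * 4 ^ M := by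
      unfold val; rw [Finset.sum_range_succ]
    rw [h1, h2, ih, pow_add]
    ring

private theorem SH2_congr (e f : ℕ → ℤ) (N : ℕ) (h : ∀ i < N, e i = f i) : val e N = val f N := by
  unfold val
  exact Finset.sum_congr rfl (fun i hi => by rw [h i (Finset.mem_range.1 hi)])

private theorem SH2_smul (s : ℤ) (f : ℕ → ℤ) (M : ℕ) : val (fun l => s * f l) M = s * val f M := by
  unfold val
  rw [Finset.mul_sum]
  exact Finset.sum_congr rfl (fun i _ => by ring)

private theorem SH2_bound (e : ℕ → ℤ) (he : IsDig e) (N : ℕ) :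
    3 * val e N ≤ 4 ^ N - 1 ∧ -(4 ^ N - 1) ≤ 3 * val e N := by
  induction N with
  | zero => simp [val]
  | succ N ih =>
    have h1 : val e (N + 1) = val e N + e N * 4 ^ N := by
      unfold val; rw [Finset.sum_range_succ]
    have hp : (0 : ℤ) < 4 ^ N := by positivity
    rw [h1, pow_succ]
    rcases he N with h | h | h <;> rw [h] <;> constructor <;> linarith [ih.1, ih.2]

private theorem SH2_first (e : ℕ → ℤ) (M : ℕ) :
    val e (M + 1) = e 0 + 4 * val (fun l => e (1 + l)) M := by
  have := SH2_split e 1 M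
  rw [Nat.add_comm] at this
  rw [this]
  simp [val]

private theorem SH2_ne (e : ℕ → ℤ) (he : IsDig e) (h0 : e 0 ≠ 0) (M : ℕ) (hM : 1 ≤ M) :
    val e M ≠ 0 := by
  obtain ⟨M', rfl⟩ : ∃ M', M = M' + 1 := ⟨M - 1, by omega⟩
  rw [SH2_first]
  have := he 0
  omega

/-- numbers with `M` digits -1, 0, 1 -/
def LM : ℕ → Finset ℤ
  | 0 => {0}
  | M + 1 => (LM M ×ˢ ({-1, 0, 1} : Finset ℤ)).image (fun p => p.1 + p.2 * 4 ^ M)

private theorem LM_card (M : ℕ) : (LM M).card ≤ 3 ^ M := by
  induction M with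
  | zero => simp [LM]
  | succ M ih =>
    have h : (LM (M + 1)).card ≤ (LM M ×ˢ ({-1, 0, 1} : Finset ℤ)).card := Finset.card_image_le
    rw [Finset.card_product] at h
    have h3 : ({-1, 0, 1} : Finset ℤ).card = 3 := by decide
    rw [h3] at h
    rw [pow_succ]
    omega

private theorem LM_mem (e : ℕ → ℤ) (he : IsDig e) (M : ℕ) : val e M ∈ LM M := by
  induction M with
  | zero => simp [LM, val]
  | succ M ih =>
    have h1 : val e (M + 1) = val e M + e M * 4 ^ M := by
      unfold val; rw [Finset.sum_range_succ]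
    rw [h1]
    show _ ∈ (LM M ×ˢ ({-1, 0, 1} : Finset ℤ)).image (fun p => p.1 + p.2 * 4 ^ M)
    rw [Finset.mem_image]
    refine ⟨(val e M, e M), ?_, rfl⟩
    rw [Finset.mem_product]
    refine ⟨ih, ?_⟩
    simp only [Finset.mem_insert, Finset.mem_singleton]
    exact he M

private theorem LM_neg (M : ℕ) : ∀ y ∈ LM M, -y ∈ LM M := by
  induction M with
  | zero => intro y hy; simp [LM] at hy ⊢; exact hy
  | succ M ih =>
    intro y hy
    change y ∈ (LM M ×ˢ ({-1, 0, 1} : Finset ℤ)).image (fun p => p.1 + p.2 * 4 ^ M) at hy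
    show _ ∈ (LM M ×ˢ ({-1, 0, 1} : Finset ℤ)).image (fun p => p.1 + p.2 * 4 ^ M)
    rw [Finset.mem_image] at hy ⊢
    obtain ⟨⟨a, b⟩, hab, rfl⟩ := hy
    rw [Finset.mem_product] at hab
    refine ⟨(-a, -b), ?_, by ring⟩
    rw [Finset.mem_product]
    refine ⟨ih _ hab.1, ?_⟩
    have h2 := hab.2
    simp only [Finset.mem_insert, Finset.mem_singleton] at h2 ⊢
    omega

private theorem LM_zero (M : ℕ) : (0 : ℤ) ∈ LM M := by
  have h := LM_mem (fun _ => 0) (fun _ => Or.inr (Or.inl rfl)) M
  have h2 : val (fun _ => 0) M = 0 := by simp [val]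
  rwa [h2] at h

private theorem LM_pos_card (M : ℕ) : 2 * ((LM M).filter (fun y => 0 < y)).card + 1 ≤ 3 ^ M := by
  classical
  set P := (LM M).filter (fun y => 0 < y) with hP
  have h1 : (P.image (fun y => -y)).card = P.card :=
    Finset.card_image_of_injective _ neg_injective
  have hd1 : Disjoint P (P.image (fun y => -y)) := by
    rw [Finset.disjoint_left]
    intro y hy hy2
    rw [Finset.mem_image] at hy2
    obtain ⟨z, hz, hzy⟩ := hy2
    rw [hP, Finset.mem_filter] at hy hz
    omega
  have hd2 : Disjoint (P ∪ P.image (fun y => -y)) ({0} : Finset ℤ) := by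
    rw [Finset.disjoint_singleton_right, Finset.mem_union, Finset.mem_image]
    rintro (h | ⟨z, hz, hz0⟩)
    · rw [hP, Finset.mem_filter] at h; omega
    · rw [hP, Finset.mem_filter] at hz; omega
  have hsub : (P ∪ P.image (fun y => -y)) ∪ ({0} : Finset ℤ) ⊆ LM M := by
    intro y hy
    rw [Finset.mem_union, Finset.mem_union, Finset.mem_image, Finset.mem_singleton] at hy
    rcases hy with (h | ⟨z, hz, rfl⟩) | rfl
    · exact (Finset.mem_filter.1 h).1
    · exact LM_neg M z (Finset.mem_filter.1 hz).1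
    · exact LM_zero M
  have hc := Finset.card_le_card hsub
  rw [Finset.card_union_of_disjoint hd2, Finset.card_union_of_disjoint hd1, h1,
    Finset.card_singleton] at hc
  have := LM_card M
  omega

private theorem SH2_top (e : ℕ → ℤ) (he : IsDig e) (i M : ℕ) : ∃ y ∈ LM M,
    3 * (4 ^ M * val e i - 4 ^ i * y) ≤ 4 ^ i ∧ -(4 ^ i) ≤ 3 * (4 ^ M * val e i - 4 ^ i * y) := by
  have hpi : (0 : ℤ) < 4 ^ i := by positivity
  rcases le_total M i with h | h
  · obtain ⟨t, rfl⟩ : ∃ t, i = t + M := ⟨i - M, by omega⟩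
    refine ⟨val (fun l => e (t + l)) M, LM_mem _ (fun l => he _) M, ?_⟩
    have h1 := SH2_split e t M
    have hb := SH2_bound e he t
    have hpM : (0 : ℤ) < 4 ^ M := by positivity
    have h2 : 4 ^ M * val e (t + M) - 4 ^ (t + M) * val (fun l => e (t + l)) M
        = 4 ^ M * val e t := by rw [h1, pow_add]; ring
    rw [h2, pow_add]
    constructor <;> nlinarith [hb.1, hb.2]
  · obtain ⟨s, rfl⟩ : ∃ s, M = s + i := ⟨M - i, by omega⟩
    let g : ℕ → ℤ := fun l => if l < s then 0 else e (l - s)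
    have hg : IsDig g := by
      intro l
      by_cases hl : l < s
      · right; left; simp only [g, if_pos hl]
      · simp only [g, if_neg hl]; exact he _
    have hv : val g (s + i) = 4 ^ s * val e i := by
      rw [SH2_split]
      have h1 : val g s = 0 := by
        rw [SH2_congr g (fun _ => 0) s (fun l hl => by simp only [g, if_pos hl])]
        simp [val]
      have h2 : val (fun l => g (s + l)) i = val e i := by
        apply SH2_congr
        intro l _
        have h3 : ¬ (s + l < s) := by omega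
        have h4 : s + l - s = l := by omega
        simp only [g, if_neg h3, h4]
      rw [h1, h2]; ring
    refine ⟨val g (s + i), LM_mem g hg _, ?_⟩
    rw [hv]
    have h5 : (4 : ℤ) ^ (s + i) * val e i - 4 ^ i * (4 ^ s * val e i) = 0 := by
      rw [pow_add]; ring
    rw [h5]
    constructor <;> linarith

theorem SH2_ok : ∀ k : ℤ, Odd k → 0 < k → (∃ N, Sol k N) → ∀ M : ℕ, 2 * k < 4 ^ M →
    ∃ N : ℕ, 2 * N ≤ 3 ^ M + 1 ∧ Sol k N := by
  classical
  intro k _ hk hex M hM2
  have hN := Nat.find_spec hex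
  have hmin : ∀ M, M < Nat.find hex → ¬ Sol k M := fun M hM => Nat.find_min hex hM
  set N := Nat.find hex with hNdef
  refine ⟨N, ?_, hN⟩
  obtain ⟨e, e', he, he', hke, hne⟩ := hN
  have hNpos : 1 ≤ N := by
    by_contra h
    have : N = 0 := by omega
    rw [this] at hne
    exact hne (by simp [val])
  have h0 : e' 0 ≠ 0 := by
    intro h0
    obtain ⟨M, hM⟩ : ∃ M, N = M + 1 := ⟨N - 1, by omega⟩
    rw [hM, SH2_first, SH2_first, h0] at hke
    rw [hM, SH2_first, h0] at hne
    have he0 := he 0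
    have h1 : 4 * (k * val (fun l => e' (1 + l)) M) = e 0 + 4 * val (fun l => e (1 + l)) M := by
      rw [← hke]; ring
    have h2 : k * val (fun l => e' (1 + l)) M = val (fun l => e (1 + l)) M := by omega
    exact hmin M (by omega) ⟨fun l => e (1 + l), fun l => e' (1 + l), fun l => he _, fun l => he' _,
      h2, fun h => hne (by rw [h]; simp)⟩
  let c : ℕ → ℤ := fun i => val (fun l => e (i + l)) (N - i) - k * val (fun l => e' (i + l)) (N - i)
  have hc : ∀ i, i ≤ N → k * val e' i - val e i = 4 ^ i * c i := by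
    intro i hi
    have h1 := SH2_split e i (N - i)
    have h2 := SH2_split e' i (N - i)
    rw [Nat.add_sub_cancel' hi] at h1 h2
    rw [h1, h2] at hke
    show _ = 4 ^ i * (val (fun l => e (i + l)) (N - i) - k * val (fun l => e' (i + l)) (N - i))
    linear_combination hke
  have hcb : ∀ i, i ≤ N → 3 * c i ≤ k ∧ -k ≤ 3 * c i := by
    intro i hi
    have h1 := SH2_bound e he i
    have h2 := SH2_bound e' he' i
    have h3 := hc i hi
    have hp : (0 : ℤ) < 4 ^ i := by positivity
    have h4 : k * (3 * val e' i) ≤ k * (4 ^ i - 1) := mul_le_mul_of_nonneg_left h2.1 hk.le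
    have h5 : k * (-(4 ^ i - 1)) ≤ k * (3 * val e' i) := mul_le_mul_of_nonneg_left h2.2 hk.le
    have h6 : 4 ^ i * (3 * c i) < 4 ^ i * (k + 1) := by nlinarith
    have h7 : 4 ^ i * (-(k + 1)) < 4 ^ i * (3 * c i) := by nlinarith
    have h8 := lt_of_mul_lt_mul_left h6 hp.le
    have h9 := lt_of_mul_lt_mul_left h7 hp.le
    constructor <;> omega
  have hcne : ∀ i, 1 ≤ i → i < N → c i ≠ 0 := by
    intro i hi1 hi2 h
    have h3 := hc i hi2.le
    rw [h] at h3
    exact hmin i hi2 ⟨e, e', he, he', by linarith, SH2_ne e' he' h0 i hi1⟩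
  have hpair : ∀ i j, 1 ≤ i → i < j → j < N → ∀ s : ℤ, (s = 1 ∨ s = -1) → c i ≠ s * c j := by
    intro i j hi hij hj s hs hcs
    let d : (ℕ → ℤ) → ℕ → ℤ := fun f l => if l < i then f l else s * f (j + (l - i))
    have hd : ∀ f, IsDig f → IsDig (d f) := by
      intro f hf l
      by_cases hl : l < i
      · simp only [d, if_pos hl]; exact hf l
      · simp only [d, if_neg hl]
        have := hf (j + (l - i))
        rcases hs with rfl | rfl <;> omega
    have hdv : ∀ f, val (d f) (i + (N - j)) = val f i + 4 ^ i * (s * val (fun l => f (j + l)) (N - j)) := by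
      intro f
      rw [SH2_split]
      congr 1
      · exact SH2_congr _ _ _ (fun l hl => by simp only [d, if_pos hl])
      · rw [← SH2_smul s (fun l => f (j + l))]
        congr 1
        apply SH2_congr
        intro l _
        have h1 : ¬ (i + l < i) := by omega
        have h2 : i + l - i = l := by omega
        simp only [d, if_neg h1, h2]
    have hlt : i + (N - j) < N := by omega
    apply hmin _ hlt
    refine ⟨d e, d e', hd e he, hd e' he', ?_, ?_⟩
    · rw [hdv, hdv]
      have h3 := hc i (by omega)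
      have h4 : c i = s * (val (fun l => e (j + l)) (N - j) - k * val (fun l => e' (j + l)) (N - j)) := hcs
      rw [h4] at h3
      linear_combination h3
    · apply SH2_ne _ (hd e' he') _ _ (by omega)
      have : (0 : ℕ) < i := by omega
      simp only [d, if_pos this]
      exact h0
  have hy : ∀ i, ∃ y : ℤ, i ≤ N → y ∈ LM M ∧ 2 * (4 ^ M * c i - k * y) < 4 ^ M ∧
      -(4 ^ M) < 2 * (4 ^ M * c i - k * y) := by
    intro i
    obtain ⟨y, hyL, hy1, hy2⟩ := SH2_top e' he' i M
    refine ⟨y, fun hi => ⟨hyL, ?_⟩⟩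
    have h3 := hc i hi
    have hb := SH2_bound e he i
    have hp : (0 : ℤ) < 4 ^ i := by positivity
    have hpM : (0 : ℤ) < 4 ^ M := by positivity
    have h4 : 4 ^ i * (4 ^ M * c i - k * y) =
        k * (4 ^ M * val e' i - 4 ^ i * y) - 4 ^ M * val e i := by
      linear_combination (-(4 : ℤ) ^ M) * h3
    have h5 : k * (3 * (4 ^ M * val e' i - 4 ^ i * y)) ≤ k * 4 ^ i :=
      mul_le_mul_of_nonneg_left hy1 hk.le
    have h6 : k * (-(4 ^ i)) ≤ k * (3 * (4 ^ M * val e' i - 4 ^ i * y)) :=
      mul_le_mul_of_nonneg_left hy2 hk.le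
    have h7 : 4 ^ M * (3 * val e i) ≤ 4 ^ M * (4 ^ i - 1) :=
      mul_le_mul_of_nonneg_left hb.1 hpM.le
    have h8 : 4 ^ M * (-(4 ^ i - 1)) ≤ 4 ^ M * (3 * val e i) :=
      mul_le_mul_of_nonneg_left hb.2 hpM.le
    have h9 : 4 ^ i * (3 * (4 ^ M * c i - k * y)) < 4 ^ i * (k + 4 ^ M) := by nlinarith
    have h10 : 4 ^ i * (-(k + 4 ^ M)) < 4 ^ i * (3 * (4 ^ M * c i - k * y)) := by nlinarith
    have h11 := lt_of_mul_lt_mul_left h9 hp.le
    have h12 := lt_of_mul_lt_mul_left h10 hp.le
    constructor <;> linarith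
  choose y hy using hy
  have hyc : ∀ i j, i ≤ N → j ≤ N → ∀ s : ℤ, (s = 1 ∨ s = -1) → y i = s * y j → c i = s * c j := by
    intro i j hi hj s hs hys
    obtain ⟨-, h1, h2⟩ := hy i hi
    obtain ⟨-, h3, h4⟩ := hy j hj
    rw [hys] at h1 h2
    have hpM : (0 : ℤ) < 4 ^ M := by positivity
    rcases hs with rfl | rfl
    · have h5 : 4 ^ M * (c i - c j) < 4 ^ M * 1 := by linarith
      have h6 : 4 ^ M * (-1) < 4 ^ M * (c i - c j) := by linarith
      have h7 := lt_of_mul_lt_mul_left h5 hpM.le
      have h8 := lt_of_mul_lt_mul_left h6 hpM.le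
      linarith [show c i - c j = 0 by omega]
    · have h5 : 4 ^ M * (c i + c j) < 4 ^ M * 1 := by linarith
      have h6 : 4 ^ M * (-1) < 4 ^ M * (c i + c j) := by linarith
      have h7 := lt_of_mul_lt_mul_left h5 hpM.le
      have h8 := lt_of_mul_lt_mul_left h6 hpM.le
      linarith [show c i + c j = 0 by omega]
  have hy0 : ∀ i, 1 ≤ i → i < N → y i ≠ 0 := by
    intro i hi1 hi2 h0y
    obtain ⟨-, h1, h2⟩ := hy i hi2.le
    rw [h0y] at h1 h2
    have hpM : (0 : ℤ) < 4 ^ M := by positivity
    have h5 : 4 ^ M * (2 * c i) < 4 ^ M * 1 := by linarith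
    have h6 : 4 ^ M * (-1) < 4 ^ M * (2 * c i) := by linarith
    have h7 := lt_of_mul_lt_mul_left h5 hpM.le
    have h8 := lt_of_mul_lt_mul_left h6 hpM.le
    exact hcne i hi1 hi2 (by omega)
  have hcard : (Finset.Ico 1 N).card ≤ ((LM M).filter (fun y => 0 < y)).card := by
    apply Finset.card_le_card_of_injOn (fun i => |y i|)
    · intro i hi
      rw [Finset.mem_coe, Finset.mem_Ico] at hi
      rw [Finset.mem_coe, Finset.mem_filter]
      refine ⟨?_, abs_pos.2 (hy0 i hi.1 hi.2)⟩
      have h1 := (hy i hi.2.le).1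
      simp only
      rcases abs_choice (y i) with h | h
      · rw [h]; exact h1
      · rw [h]; exact LM_neg M _ h1
    · intro i hi j hj hij
      rw [Finset.mem_coe, Finset.mem_Ico] at hi hj
      simp only at hij
      by_contra hne'
      have h3 : y i = y j ∨ y i = - y j := abs_eq_abs.1 hij
      rcases lt_or_gt_of_ne hne' with hlt | hgt
      · rcases h3 with h3 | h3
        · exact hpair i j hi.1 hlt hj.2 1 (Or.inl rfl)
            (hyc i j hi.2.le hj.2.le 1 (Or.inl rfl) (by rw [h3]; ring))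
        · exact hpair i j hi.1 hlt hj.2 (-1) (Or.inr rfl)
            (hyc i j hi.2.le hj.2.le (-1) (Or.inr rfl) (by rw [h3]; ring))
      · rcases h3 with h3 | h3
        · exact hpair j i hj.1 hgt hi.2 1 (Or.inl rfl)
            (hyc j i hj.2.le hi.2.le 1 (Or.inl rfl) (by rw [h3]; ring))
        · exact hpair j i hj.1 hgt hi.2 (-1) (Or.inr rfl)
            (hyc j i hj.2.le hi.2.le (-1) (Or.inr rfl) (by rw [h3]; ring))
  have hpc := LM_pos_card M
  rw [Nat.card_Ico] at hcard
  omega

end Pool.Agent.H902R3.BF
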