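import Pool.Agent.H902R3.BF.Defs

set_option autoImplicit false

namespace Pool.Agent.H902R3.BF

private theorem SHO_split (e : ℕ → ℤ) (i M : ℕ) :
    val e (i + M) = val e i + 4 ^ i * val (fun l => e (i + l)) M := by
  induction M with
  | zero => simp [val]
  | succ M ih =>
    have h1 : val e (i + (M + 1)) = val e (i + M) + e (i + M) * 4 ^ (i + M) := by
      unfold val; rw [← Nat.add_assoc, Finset.sum_range_succ]
    have h2 : val (fun l => e (i + l)) (M + 1) = val (fun l => e (i + l)) M + e (i + M) * 4 ^ M := by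
      unfold val; rw [Finset.sum_range_succ]
    rw [h1, h2, ih, pow_add]
    ring

private theorem SHO_congr (e f : ℕ → ℤ) (N : ℕ) (h : ∀ i < N, e i = f i) : val e N = val f N := by
  unfold val
  exact Finset.sum_congr rfl (fun i hi => by rw [h i (Finset.mem_range.1 hi)])

private theorem SHO_smul (s : ℤ) (f : ℕ → ℤ) (M : ℕ) : val (fun l => s * f l) M = s * val f M := by
  unfold val
  rw [Finset.mul_sum]
  exact Finset.sum_congr rfl (fun i _ => by ring)

private theorem SHO_bound (e : ℕ → ℤ) (he : IsDig e) (N : ℕ) :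
    3 * val e N ≤ 4 ^ N - 1 ∧ -(4 ^ N - 1) ≤ 3 * val e N := by
  induction N with
  | zero => simp [val]
  | succ N ih =>
    have h1 : val e (N + 1) = val e N + e N * 4 ^ N := by
      unfold val; rw [Finset.sum_range_succ]
    have hp : (0 : ℤ) < 4 ^ N := by positivity
    rw [h1, pow_succ]
    rcases he N with h | h | h <;> rw [h] <;> constructor <;> linarith [ih.1, ih.2]

private theorem SHO_first (e : ℕ → ℤ) (M : ℕ) :
    val e (M + 1) = e 0 + 4 * val (fun l => e (1 + l)) M := by
  have := SHO_split e 1 M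
  rw [Nat.add_comm] at this
  rw [this]
  simp [val]

private theorem SHO_ne (e : ℕ → ℤ) (he : IsDig e) (h0 : e 0 ≠ 0) (M : ℕ) (hM : 1 ≤ M) :
    val e M ≠ 0 := by
  obtain ⟨M', rfl⟩ : ∃ M', M = M' + 1 := ⟨M - 1, by omega⟩
  rw [SHO_first]
  have := he 0
  omega

theorem SHO_ok : S_SHO := by
  classical
  intro k _ hk hex
  have hN := Nat.find_spec hex
  have hmin : ∀ M, M < Nat.find hex → ¬ Sol k M := fun M hM => Nat.find_min hex hM
  set N := Nat.find hex with hNdef
  refine ⟨N, ?_, hN⟩
  obtain ⟨e, e', he, he', hke, hne⟩ := hN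
  have hNpos : 1 ≤ N := by
    by_contra h
    have : N = 0 := by omega
    rw [this] at hne
    exact hne (by simp [val])
  have h0 : e' 0 ≠ 0 := by
    intro h0
    obtain ⟨M, hM⟩ : ∃ M, N = M + 1 := ⟨N - 1, by omega⟩
    rw [hM, SHO_first, SHO_first, h0] at hke
    rw [hM, SHO_first, h0] at hne
    have he0 := he 0
    have h1 : 4 * (k * val (fun l => e' (1 + l)) M) = e 0 + 4 * val (fun l => e (1 + l)) M := by
      rw [← hke]; ring
    have h2 : k * val (fun l => e' (1 + l)) M = val (fun l => e (1 + l)) M := by omega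
    exact hmin M (by omega) ⟨fun l => e (1 + l), fun l => e' (1 + l), fun l => he _, fun l => he' _,
      h2, fun h => hne (by rw [h]; simp)⟩
  let c : ℕ → ℤ := fun i => val (fun l => e (i + l)) (N - i) - k * val (fun l => e' (i + l)) (N - i)
  have hc : ∀ i, i ≤ N → k * val e' i - val e i = 4 ^ i * c i := by
    intro i hi
    have h1 := SHO_split e i (N - i)
    have h2 := SHO_split e' i (N - i)
    rw [Nat.add_sub_cancel' hi] at h1 h2
    rw [h1, h2] at hke
    show _ = 4 ^ i * (val (fun l => e (i + l)) (N - i) - k * val (fun l => e' (i + l)) (N - i))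
    linear_combination hke
  have hcb : ∀ i, i ≤ N → 3 * c i ≤ k ∧ -k ≤ 3 * c i := by
    intro i hi
    have h1 := SHO_bound e he i
    have h2 := SHO_bound e' he' i
    have h3 := hc i hi
    have hp : (0 : ℤ) < 4 ^ i := by positivity
    have h4 : k * (3 * val e' i) ≤ k * (4 ^ i - 1) := mul_le_mul_of_nonneg_left h2.1 hk.le
    have h5 : k * (-(4 ^ i - 1)) ≤ k * (3 * val e' i) := mul_le_mul_of_nonneg_left h2.2 hk.le
    have h6 : 4 ^ i * (3 * c i) < 4 ^ i * (k + 1) := by nlinarith
    have h7 : 4 ^ i * (-(k + 1)) < 4 ^ i * (3 * c i) := by nlinarith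
    have h8 := lt_of_mul_lt_mul_left h6 hp.le
    have h9 := lt_of_mul_lt_mul_left h7 hp.le
    constructor <;> omega
  have hcne : ∀ i, 1 ≤ i → i < N → c i ≠ 0 := by
    intro i hi1 hi2 h
    have h3 := hc i hi2.le
    rw [h] at h3
    exact hmin i hi2 ⟨e, e', he, he', by linarith, SHO_ne e' he' h0 i hi1⟩
  have hpair : ∀ i j, 1 ≤ i → i < j → j < N → ∀ s : ℤ, (s = 1 ∨ s = -1) → c i ≠ s * c j := by
    intro i j hi hij hj s hs hcs
    let d : (ℕ → ℤ) → ℕ → ℤ := fun f l => if l < i then f l else s * f (j + (l - i))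
    have hd : ∀ f, IsDig f → IsDig (d f) := by
      intro f hf l
      by_cases hl : l < i
      · simp only [d, if_pos hl]; exact hf l
      · simp only [d, if_neg hl]
        have := hf (j + (l - i))
        rcases hs with rfl | rfl <;> omega
    have hdv : ∀ f, val (d f) (i + (N - j)) = val f i + 4 ^ i * (s * val (fun l => f (j + l)) (N - j)) := by
      intro f
      rw [SHO_split]
      congr 1
      · exact SHO_congr _ _ _ (fun l hl => by simp only [d, if_pos hl])
      · rw [← SHO_smul s (fun l => f (j + l))]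
        congr 1
        apply SHO_congr
        intro l _
        have h1 : ¬ (i + l < i) := by omega
        have h2 : i + l - i = l := by omega
        simp only [d, if_neg h1, h2]
    have hlt : i + (N - j) < N := by omega
    apply hmin _ hlt
    refine ⟨d e, d e', hd e he, hd e' he', ?_, ?_⟩
    · rw [hdv, hdv]
      have h3 := hc i (by omega)
      have h4 : c i = s * (val (fun l => e (j + l)) (N - j) - k * val (fun l => e' (j + l)) (N - j)) := hcs
      rw [h4] at h3
      linear_combination h3
    · apply SHO_ne _ (hd e' he') _ _ (by omega)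
      have : (0 : ℕ) < i := by omega
      simp only [d, if_pos this]
      exact h0
  have hcard : (Finset.Ico 1 N).card ≤ (Finset.Icc 1 (k.toNat / 3)).card := by
    apply Finset.card_le_card_of_injOn (fun i => (c i).natAbs)
    · intro i hi
      rw [Finset.mem_coe, Finset.mem_Ico] at hi
      rw [Finset.mem_coe, Finset.mem_Icc]
      have h1 := hcb i hi.2.le
      have h2 := hcne i hi.1 hi.2
      simp only
      omega
    · intro i hi j hj hij
      rw [Finset.mem_coe, Finset.mem_Ico] at hi hj
      simp only at hij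
      by_contra hne'
      have h3 : c i = c j ∨ c i = - c j := Int.natAbs_eq_natAbs_iff.1 hij
      rcases lt_or_gt_of_ne hne' with hlt | hgt
      · rcases h3 with h3 | h3
        · exact hpair i j hi.1 hlt hj.2 1 (Or.inl rfl) (by rw [h3]; ring)
        · exact hpair i j hi.1 hlt hj.2 (-1) (Or.inr rfl) (by rw [h3]; ring)
      · rcases h3 with h3 | h3
        · exact hpair j i hj.1 hgt hi.2 1 (Or.inl rfl) (by rw [h3]; ring)
        · exact hpair j i hj.1 hgt hi.2 (-1) (Or.inr rfl) (by rw [h3]; ring)
  rw [Nat.card_Ico, Nat.card_Icc] at hcard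
  omega

end Pool.Agent.H902R3.BF
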