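import Pool.Agent.H902R3.BF.Defs
import Pool.Agent.H902R3.BF.SHO
import Pool.Agent.H902R3.BF.SH2

set_option autoImplicit false

namespace Pool.Agent.H902R3.BF

private theorem fn3_neg_dig {e : ℕ → ℤ} (h : IsDig e) : IsDig (fun i => - e i) := by
  intro i
  rcases h i with h | h | h
  · right; right
    simp only [h]
    norm_num
  · right; left
    simp only [h]
    norm_num
  · left
    simp only [h]

private theorem fn3_neg_val (e : ℕ → ℤ) (N : ℕ) : val (fun i => - e i) N = - val e N := by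
  unfold val
  rw [← Finset.sum_neg_distrib]
  refine Finset.sum_congr rfl fun i _ => ?_
  ring

private theorem fn3_neg_L {n : ℤ} (h : n ∈ L) : - n ∈ L := by
  obtain ⟨N, e, he, hn⟩ := h
  exact ⟨N, fun i => - e i, fn3_neg_dig he, by rw [fn3_neg_val, hn]⟩

private theorem fn3_bound {e : ℕ → ℤ} (h : IsDig e) (N : ℕ) : 3 * |val e N| ≤ 4 ^ N - 1 := by
  induction N with
  | zero => simp [val]
  | succ N ih =>
    have h1 : val e (N + 1) = val e N + e N * 4 ^ N := by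
      unfold val
      rw [Finset.sum_range_succ]
    have h2 : |e N| ≤ 1 := by
      rcases h N with h | h | h <;> rw [h] <;> norm_num
    have hp : (0 : ℤ) < 4 ^ N := by positivity
    have h3 : |e N * 4 ^ N| ≤ 4 ^ N := by
      rw [abs_mul, abs_of_pos hp]
      nlinarith [abs_nonneg (e N)]
    have h4 := abs_add_le (val e N) (e N * 4 ^ N)
    rw [h1, pow_succ]
    linarith

private theorem fn3_pos (h1 : S_EXI) (k : ℤ) (hk : Odd k) (h0 : 0 < k) :
    ∃ m : ℤ, 0 < m ∧ m ∈ L ∧ k * m ∈ L ∧ 3 * m < 4 ^ (k.natAbs / 3 + 1) ∧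
      ∀ M : ℕ, 2 * |k| < 4 ^ M → 3 * m < 4 ^ ((3 ^ M + 1) / 2) := by
  classical
  have hex := h1 k hk h0
  have hsol := Nat.find_spec hex
  have hle : ∀ N', Sol k N' → Nat.find hex ≤ N' := fun N' h => Nat.find_min' hex h
  set N := Nat.find hex with hN
  obtain ⟨e, e', he, he', heq, hne⟩ := hsol
  have hb := fn3_bound he' N
  obtain ⟨N1, hN1, hS1⟩ := SHO_ok k hk h0 hex
  have hN' : N ≤ k.natAbs / 3 + 1 := by
    have := hle N1 hS1
    omega
  have hpow : (4 : ℤ) ^ N ≤ 4 ^ (k.natAbs / 3 + 1) := pow_le_pow_right₀ (by norm_num) hN'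
  have hM : ∀ M : ℕ, 2 * |k| < 4 ^ M → 3 * |val e' N| < 4 ^ ((3 ^ M + 1) / 2) := by
    intro M hM
    rw [abs_of_pos h0] at hM
    obtain ⟨N2, hN2, hS2⟩ := SH2_ok k hk h0 hex M hM
    have h3 := hle N2 hS2
    have h4 : N ≤ (3 ^ M + 1) / 2 := by omega
    have h5 : (4 : ℤ) ^ N ≤ 4 ^ ((3 ^ M + 1) / 2) := pow_le_pow_right₀ (by norm_num) h4
    linarith
  refine ⟨|val e' N|, abs_pos.2 hne, ?_, ?_, by linarith, hM⟩
  · have h3 : val e' N ∈ L := ⟨N, e', he', rfl⟩
    rcases abs_choice (val e' N) with h | h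
    · rw [h]
      exact h3
    · rw [h]
      exact fn3_neg_L h3
  · have h3 : val e N ∈ L := ⟨N, e, he, rfl⟩
    rcases abs_choice (val e' N) with h | h
    · rw [h, heq]
      exact h3
    · rw [h, mul_neg, heq]
      exact fn3_neg_L h3

theorem FN3_ok (h1 : S_EXI) : ∀ k : ℤ, Odd k →
    ∃ m : ℤ, 0 < m ∧ m ∈ L ∧ k * m ∈ L ∧ 3 * m < 4 ^ (k.natAbs / 3 + 1) ∧
      ∀ M : ℕ, 2 * |k| < 4 ^ M → 3 * m < 4 ^ ((3 ^ M + 1) / 2) := by
  intro k hk
  rcases lt_trichotomy k 0 with h | h | h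
  · obtain ⟨m, hm, hmL, hkm, hb, hb2⟩ := fn3_pos h1 (-k) hk.neg (by linarith)
    rw [Int.natAbs_neg] at hb
    rw [abs_neg] at hb2
    refine ⟨m, hm, hmL, ?_, hb, hb2⟩
    have h3 := fn3_neg_L hkm
    have e : -(-k * m) = k * m := by ring
    rw [e] at h3
    exact h3
  · exfalso
    subst h
    exact (by decide : ¬ Odd (0 : ℤ)) hk
  · exact fn3_pos h1 k hk h

end Pool.Agent.H902R3.BF
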