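import Pool.Agent.H902R3.BF.Defs

set_option autoImplicit false

namespace Pool.Agent.H902R3.BF

/-- the difference of two bits -/
private def bd (a b : Bool) : ℤ := (if a then 1 else 0) - (if b then 1 else 0)

private theorem bd_dig (a b : Bool) : bd a b = -1 ∨ bd a b = 0 ∨ bd a b = 1 := by
  cases a <;> cases b <;> simp [bd]

private theorem bd_zero (a b : Bool) (h : bd a b = 0) : a = b := by
  cases a <;> cases b <;> simp [bd] at h ⊢

/-- extension by zero -/
private def ext0 (N : ℕ) (c : Fin N → ℤ) (i : ℕ) : ℤ := if h : i < N then c ⟨i, h⟩ else 0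

private theorem ext0_val (N : ℕ) (c : Fin N → ℤ) :
    val (ext0 N c) N = ∑ i : Fin N, c i * 4 ^ (i : ℕ) := by
  unfold val
  rw [Finset.sum_range]
  refine Finset.sum_congr rfl fun i _ => ?_
  unfold ext0
  rw [dif_pos i.2]

theorem INJ_ok (h : S_UNQ) : S_INJ := by
  intro k N hns u v huv
  set e : ℕ → ℤ := ext0 N (fun i => bd (u i).1 (v i).1) with he
  set e' : ℕ → ℤ := ext0 N (fun i => bd (u i).2 (v i).2) with he'
  have hd : IsDig e := by
    intro i
    rw [he]
    unfold ext0
    split_ifs with hi
    · exact bd_dig _ _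
    · right; left; rfl
  have hd' : IsDig e' := by
    intro i
    rw [he']
    unfold ext0
    split_ifs with hi
    · exact bd_dig _ _
    · right; left; rfl
  have hv : val e N - k * val e' N = 0 := by
    have h0 : xv k N u - xv k N v = 0 := sub_eq_zero.2 huv
    rw [← h0, he, he', ext0_val, ext0_val]
    unfold xv
    rw [Finset.mul_sum, ← Finset.sum_sub_distrib, ← Finset.sum_sub_distrib]
    refine Finset.sum_congr rfl fun i _ => ?_
    unfold bd
    ring
  have hv' : k * val e' N = val e N := by linarith
  have h0' : val e' N = 0 := by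
    by_contra hne
    exact hns ⟨e, e', hd, hd', hv', hne⟩
  have h0 : val e N = 0 := by rw [← hv', h0', mul_zero]
  have z := h e N hd h0
  have z' := h e' N hd' h0'
  funext i
  have z1 := z i i.2
  have z2 := z' i i.2
  rw [he] at z1
  rw [he'] at z2
  unfold ext0 at z1 z2
  rw [dif_pos i.2] at z1 z2
  exact Prod.ext (bd_zero _ _ z1) (bd_zero _ _ z2)

end Pool.Agent.H902R3.BF
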