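import Pool.Agent.H902R3.BF.Defs

set_option autoImplicit false

namespace Pool.Agent.H902R3.BF

theorem LOW_cos (n : ℤ) : Real.cos (n * Real.pi) ^ 2 = 1 := by
  have h := Real.sin_sq_add_cos_sq (n * Real.pi)
  rw [Real.sin_int_mul_pi] at h
  linarith

theorem LOW_ok : S_LOW := by
  intro k N s hs
  unfold FF
  obtain ⟨d, rfl⟩ := Nat.exists_eq_add_of_le hs
  rw [Nat.add_sub_cancel_left, Finset.prod_range_add]
  have h1 : ∏ j ∈ Finset.range s, (16 * Real.cos (Real.pi * ((4 ^ s : ℕ) : ℝ) / 4 ^ (j + 1)) ^ 2 *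
      Real.cos (Real.pi * k * ((4 ^ s : ℕ) : ℝ) / 4 ^ (j + 1)) ^ 2) = 16 ^ s := by
    have : ∀ j ∈ Finset.range s, (16 * Real.cos (Real.pi * ((4 ^ s : ℕ) : ℝ) / 4 ^ (j + 1)) ^ 2 *
      Real.cos (Real.pi * k * ((4 ^ s : ℕ) : ℝ) / 4 ^ (j + 1)) ^ 2) = 16 := by
      intro j hj
      rw [Finset.mem_range] at hj
      obtain ⟨t, rfl⟩ := Nat.exists_eq_add_of_lt hj
      have e1 : ((4 ^ (j + t + 1) : ℕ) : ℝ) = 4 ^ t * 4 ^ (j + 1) := by
        push_cast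
        ring
      have e2 : Real.pi * ((4 ^ (j + t + 1) : ℕ) : ℝ) / 4 ^ (j + 1) =
          ((4 ^ t : ℤ) : ℝ) * Real.pi := by
        rw [e1]
        push_cast
        field_simp
      have e3 : Real.pi * k * ((4 ^ (j + t + 1) : ℕ) : ℝ) / 4 ^ (j + 1) =
          ((k * 4 ^ t : ℤ) : ℝ) * Real.pi := by
        rw [e1]
        push_cast
        field_simp
      rw [e2, e3, LOW_cos, LOW_cos]
      norm_num
    rw [Finset.prod_congr rfl this, Finset.prod_const, Finset.card_range]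
  have h2 : ∏ i ∈ Finset.range d,
      (16 * Real.cos (Real.pi * ((4 ^ s : ℕ) : ℝ) / 4 ^ (s + i + 1)) ^ 2 *
      Real.cos (Real.pi * k * ((4 ^ s : ℕ) : ℝ) / 4 ^ (s + i + 1)) ^ 2) =
      16 ^ d * ∏ j ∈ Finset.range d, (Real.cos (Real.pi / 4 ^ (j + 1)) ^ 2 *
        Real.cos (Real.pi * k / 4 ^ (j + 1)) ^ 2) := by
    have h3 : (16 : ℝ) ^ d = ∏ _j ∈ Finset.range d, (16 : ℝ) := by
      rw [Finset.prod_const, Finset.card_range]
    rw [h3, ← Finset.prod_mul_distrib]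
    apply Finset.prod_congr rfl
    intro i _
    have e0 : (4 : ℝ) ^ (s + i + 1) = 4 ^ s * 4 ^ (i + 1) := by ring
    have e1 : Real.pi * ((4 ^ s : ℕ) : ℝ) / 4 ^ (s + i + 1) = Real.pi / 4 ^ (i + 1) := by
      rw [e0]
      push_cast
      field_simp
    have e2 : Real.pi * k * ((4 ^ s : ℕ) : ℝ) / 4 ^ (s + i + 1) = Real.pi * k / 4 ^ (i + 1) := by
      rw [e0]
      push_cast
      field_simp
    rw [e1, e2]
    ring
  rw [h1, h2, pow_add]
  ring

end Pool.Agent.H902R3.BF
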