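import Pool.Agent.H902R3.BF.Defs

set_option autoImplicit false

namespace Pool.Agent.H902R3.BF

theorem mod_aux (t : ℝ) :
    ‖1 + Complex.exp ((t : ℂ) * Complex.I)‖ ^ 2 = 4 * Real.cos (t / 2) ^ 2 := by
  rw [← Complex.normSq_eq_norm_sq, Complex.normSq_apply]
  have h1 : (1 + Complex.exp ((t : ℂ) * Complex.I)).re = 1 + Real.cos t := by
    rw [Complex.add_re, Complex.one_re, Complex.exp_ofReal_mul_I_re]
  have h2 : (1 + Complex.exp ((t : ℂ) * Complex.I)).im = Real.sin t := by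
    rw [Complex.add_im, Complex.one_im, Complex.exp_ofReal_mul_I_im, zero_add]
  rw [h1, h2]
  have h3 : Real.cos t = 2 * Real.cos (t / 2) ^ 2 - 1 := by
    rw [← Real.cos_two_mul]
    congr 1
    ring
  nlinarith [Real.sin_sq_add_cos_sq t]

/-- the factors -/
noncomputable def mod_f (k : ℤ) (t : ℝ) (p : Bool × Bool) : ℂ :=
  (if p.1 then Complex.exp ((t : ℂ) * Complex.I) else 1) *
    (if p.2 then Complex.exp (((-(k * t) : ℝ) : ℂ) * Complex.I) else 1)

theorem mod_sum (k : ℤ) (t : ℝ) : ∑ p : Bool × Bool, mod_f k t p =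
    (1 + Complex.exp ((t : ℂ) * Complex.I)) *
      (1 + Complex.exp (((-(k * t) : ℝ) : ℂ) * Complex.I)) := by
  rw [Fintype.sum_prod_type]
  simp only [Fintype.sum_bool, mod_f]
  simp only [if_true, Bool.false_eq_true, if_false]
  ring

theorem mod_exp (k : ℤ) (N : ℕ) (a : ℕ) (u : Fin N → Bool × Bool) :
    Complex.exp (2 * Real.pi * Complex.I * a * (xv k N u : ℂ) / 4 ^ N) =
      ∏ i : Fin N, mod_f k (2 * Real.pi * a * 4 ^ (i : ℕ) / 4 ^ N) (u i) := by
  have h1 : 2 * Real.pi * Complex.I * a * (xv k N u : ℂ) / 4 ^ N =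
      ∑ i : Fin N, (((2 * Real.pi * a * 4 ^ (i : ℕ) / 4 ^ N : ℝ) : ℂ) *
        ((if (u i).1 then 1 else 0) - k * (if (u i).2 then 1 else 0))) * Complex.I := by
    unfold xv
    push_cast
    rw [Finset.mul_sum, Finset.sum_div]
    refine Finset.sum_congr rfl fun i _ => ?_
    ring
  rw [h1, Complex.exp_sum]
  refine Finset.prod_congr rfl fun i _ => ?_
  unfold mod_f
  rcases u i with ⟨b, c⟩
  cases b <;> cases c
  · simp
  · simp only [if_true, Bool.false_eq_true, if_false, one_mul]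
    congr 1
    push_cast
    ring
  · simp only [if_true, Bool.false_eq_true, if_false, mul_one, mul_zero, sub_zero]
  · simp only [if_true, mul_one]
    rw [← Complex.exp_add]
    congr 1
    push_cast
    ring

theorem MOD_ok : S_MOD := by
  intro k N a
  have h1 : ∑ u : Fin N → Bool × Bool,
      Complex.exp (2 * Real.pi * Complex.I * a * (xv k N u : ℂ) / 4 ^ N) =
      ∏ i : Fin N, ∑ p : Bool × Bool, mod_f k (2 * Real.pi * a * 4 ^ (i : ℕ) / 4 ^ N) p := by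
    rw [Finset.prod_univ_sum, Fintype.piFinset_univ]
    exact Finset.sum_congr rfl fun u _ => mod_exp k N a u
  rw [h1, norm_prod, ← Finset.prod_pow]
  have h2 : ∀ i : Fin N,
      ‖∑ p : Bool × Bool, mod_f k (2 * Real.pi * a * 4 ^ (i : ℕ) / 4 ^ N) p‖ ^ 2 =
      16 * Real.cos (Real.pi * a / 4 ^ (N - 1 - (i : ℕ) + 1)) ^ 2 *
        Real.cos (Real.pi * k * a / 4 ^ (N - 1 - (i : ℕ) + 1)) ^ 2 := by
    intro i
    have hi : N = (N - 1 - (i : ℕ) + 1) + (i : ℕ) := by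
      have := i.2
      omega
    have h3 : (4 : ℝ) ^ (i : ℕ) / 4 ^ N = 1 / 4 ^ (N - 1 - (i : ℕ) + 1) := by
      have h4 : (4 : ℝ) ^ N = 4 ^ (N - 1 - (i : ℕ) + 1) * 4 ^ (i : ℕ) := by
        rw [← pow_add, ← hi]
      rw [h4]
      field_simp
    have h5 : 2 * Real.pi * a * 4 ^ (i : ℕ) / 4 ^ N =
        2 * (Real.pi * a / 4 ^ (N - 1 - (i : ℕ) + 1)) := by
      rw [mul_div_assoc, h3]
      ring
    rw [mod_sum, norm_mul, mul_pow, mod_aux, mod_aux, h5]
    have h6 : 2 * (Real.pi * a / 4 ^ (N - 1 - (i : ℕ) + 1)) / 2 =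
        Real.pi * a / 4 ^ (N - 1 - (i : ℕ) + 1) := by ring
    have h7 : -(k * (2 * (Real.pi * a / 4 ^ (N - 1 - (i : ℕ) + 1)))) / 2 =
        -(Real.pi * k * a / 4 ^ (N - 1 - (i : ℕ) + 1)) := by ring
    rw [h6, h7, Real.cos_neg]
    ring
  rw [Finset.prod_congr rfl fun i _ => h2 i]
  unfold FF
  rw [Fin.prod_univ_eq_prod_range (fun i : ℕ =>
    16 * Real.cos (Real.pi * a / 4 ^ (N - 1 - i + 1)) ^ 2 *
        Real.cos (Real.pi * k * a / 4 ^ (N - 1 - i + 1)) ^ 2) N]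
  exact Finset.prod_range_reflect (fun j : ℕ =>
    16 * Real.cos (Real.pi * a / 4 ^ (j + 1)) ^ 2 *
        Real.cos (Real.pi * k * a / 4 ^ (j + 1)) ^ 2) N

end Pool.Agent.H902R3.BF
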