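import Pool.Agent.H902R3.BF.Defs

set_option autoImplicit false

namespace Pool.Agent.H902R3.BF

theorem PAR_geo (N : ℕ) (t : ℤ) :
    ∑ a ∈ Finset.range (4 ^ N), Complex.exp (2 * Real.pi * Complex.I * a * (t : ℂ) / 4 ^ N) =
      if (4 : ℤ) ^ N ∣ t then (4 : ℂ) ^ N else 0 := by
  have h4 : (4 : ℂ) ^ N ≠ 0 := pow_ne_zero _ (by norm_num)
  have hpi : (2 * Real.pi * Complex.I : ℂ) ≠ 0 := Complex.two_pi_I_ne_zero
  set z := Complex.exp (2 * Real.pi * Complex.I * (t : ℂ) / 4 ^ N) with hz
  have hpow : ∀ a : ℕ, Complex.exp (2 * Real.pi * Complex.I * a * (t : ℂ) / 4 ^ N) = z ^ a := by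
    intro a
    rw [hz, ← Complex.exp_nat_mul]
    congr 1
    ring
  simp only [hpow]
  split_ifs with hd
  · obtain ⟨c, hc⟩ := hd
    have hz1 : z = 1 := by
      rw [hz, Complex.exp_eq_one_iff]
      refine ⟨c, ?_⟩
      rw [hc]
      push_cast
      field_simp
    rw [hz1]
    simp
  · have hz1 : z ≠ 1 := by
      intro h
      rw [hz, Complex.exp_eq_one_iff] at h
      obtain ⟨c, hc⟩ := h
      apply hd
      refine ⟨c, ?_⟩
      have h2 : (t : ℂ) = 4 ^ N * c := by
        rw [div_eq_iff h4] at hc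
        have h3 : (2 * Real.pi * Complex.I : ℂ) * t = (2 * Real.pi * Complex.I) * (4 ^ N * c) := by
          rw [hc]; ring
        exact mul_left_cancel₀ hpi h3
      exact_mod_cast h2
    rw [geom_sum_eq hz1]
    have hzQ : z ^ (4 ^ N) = 1 := by
      rw [hz, ← Complex.exp_nat_mul, Complex.exp_eq_one_iff]
      refine ⟨t, ?_⟩
      push_cast
      field_simp
    rw [hzQ, sub_self, zero_div]

theorem PAR_ok (h : S_MOD) : S_PAR := by
  classical
  intro k N
  have key : ∀ a : ℕ, ((FF k N a : ℝ) : ℂ) = ∑ u : Fin N → Bool × Bool, ∑ v : Fin N → Bool × Bool,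
      Complex.exp (2 * Real.pi * Complex.I * a * ((xv k N u - xv k N v : ℤ) : ℂ) / 4 ^ N) := by
    intro a
    rw [← h k N a]
    push_cast
    rw [← Complex.mul_conj', map_sum, Finset.sum_mul_sum]
    refine Finset.sum_congr rfl fun u _ => Finset.sum_congr rfl fun v _ => ?_
    rw [← Complex.exp_conj, ← Complex.exp_add]
    congr 1
    simp only [map_div₀, map_mul, map_pow, Complex.conj_ofReal, Complex.conj_I, map_natCast,
      map_intCast, map_ofNat]
    push_cast
    ring
  have h1 : ((∑ a ∈ Finset.range (4 ^ N), FF k N a : ℝ) : ℂ) = ((4 ^ N * cnt k N : ℝ) : ℂ) := by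
    push_cast
    rw [Finset.sum_congr rfl fun a _ => key a, Finset.sum_comm]
    have h2 : ∀ u : Fin N → Bool × Bool,
        ∑ a ∈ Finset.range (4 ^ N), ∑ v : Fin N → Bool × Bool,
          Complex.exp (2 * Real.pi * Complex.I * a * ((xv k N u - xv k N v : ℤ) : ℂ) / 4 ^ N) =
        ∑ v : Fin N → Bool × Bool,
          if (4 : ℤ) ^ N ∣ xv k N u - xv k N v then (4 : ℂ) ^ N else 0 := by
      intro u
      rw [Finset.sum_comm]
      exact Finset.sum_congr rfl fun v _ => PAR_geo N _
    rw [Finset.sum_congr rfl fun u _ => h2 u, ← Finset.sum_product',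
      Finset.univ_product_univ]
    have h3 : (cnt k N : ℂ) = ∑ p : (Fin N → Bool × Bool) × (Fin N → Bool × Bool),
        if (4 : ℤ) ^ N ∣ xv k N p.1 - xv k N p.2 then (1 : ℂ) else 0 := by
      unfold cnt
      rw [Finset.sum_boole]
      push_cast
      congr
    rw [h3, Finset.mul_sum]
    refine Finset.sum_congr rfl fun p _ => ?_
    rw [mul_ite, mul_one, mul_zero]
  exact_mod_cast h1

end Pool.Agent.H902R3.BF
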