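import Pool.Agent.H902R3.BF.Defs

set_option autoImplicit false

namespace Pool.Agent.H902R3.BF

private theorem UNQ_step (e : ℕ → ℤ) (N : ℕ) :
    val e (N + 1) = e 0 + 4 * val (fun i => e (i + 1)) N := by
  unfold val
  rw [Finset.sum_range_succ', Finset.mul_sum]
  have h : ∑ i ∈ Finset.range N, e (i + 1) * 4 ^ (i + 1) =
      ∑ i ∈ Finset.range N, 4 * (e (i + 1) * 4 ^ i) := by
    refine Finset.sum_congr rfl fun i _ => ?_
    rw [pow_succ]
    ring
  rw [h, pow_zero, mul_one, add_comm]

theorem UNQ_ok : S_UNQ := by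
  intro e N
  induction N generalizing e with
  | zero =>
    intro _ _ i hi
    exact absurd hi (Nat.not_lt_zero i)
  | succ N ih =>
    intro hd h i hi
    rw [UNQ_step] at h
    have h0 := hd 0
    have he0 : e 0 = 0 := by omega
    have hs : val (fun i => e (i + 1)) N = 0 := by omega
    cases i with
    | zero => exact he0
    | succ i =>
      exact ih (fun i => e (i + 1)) (fun i => hd (i + 1)) hs i (Nat.lt_of_succ_lt_succ hi)

end Pool.Agent.H902R3.BF
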